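import Pool.Agent.R321.RE15

/-!
# The signs of the derivative of Hardy's function at its zeros for almost all characters

For every `ε > 0`: for all but the proportion `ε` (weight `q⁻²`) of the primitive Dirichlet characters
`χ` with conductor `q` in a window `X < q ≤ Y`, `K X ≤ Y ≤ X ^ (1 + η)`, and for
`(log X)² ≤ T ≤ X ^ η`, at least 33.62 per cent (up to `ε`) of all the zeros of `L(s, χ)` with
`T < Im s ≤ 2 T` are zeros `1/2 + it` with `Z'(t) > 0`, `Z` a Hardy function of `χ`, and at least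
33.62 per cent are zeros `1/2 + it` with `Z'(t) < 0`; in particular they are distinct and simple.
-/

open Complex

namespace Pool.Agent.Results.MP_f259ea_nt.AlmostAllSigns

/-- The Dirichlet L-function of a character modulo `q` (the value for `q = 0` is never used). -/
noncomputable def Lfun (q : ℕ) (χ : DirichletCharacter ℂ q) : ℂ → ℂ :=
  if h : q = 0 then 0 else
    haveI : NeZero q := ⟨h⟩
    DirichletCharacter.LFunction χ

/-- The zeros of `F` in the open critical strip with ordinate in `(T, 2T]`. -/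
def zeros (F : ℂ → ℂ) (T : ℝ) : Set ℂ :=
  {s : ℂ | 0 < s.re ∧ s.re < 1 ∧ T < s.im ∧ s.im ≤ 2 * T ∧ F s = 0}

/-- The number of these zeros, counted with multiplicity. -/
noncomputable def N (F : ℂ → ℂ) (T : ℝ) : ℕ := ∑ᶠ s ∈ zeros F T, analyticOrderNatAt F s

/-- The phase `q^(it/2) γ(1/2 + it) / |γ(1/2 + it)|`, where `γ` is the Gamma factor of `χ`:
`γ(s) = π^(-(s+a)/2) Γ((s+a)/2)` with `a = 0` if `χ(-1) = 1` and `a = 1` if `χ(-1) = -1`. -/
noncomputable def phase (q : ℕ) (χ : DirichletCharacter ℂ q) (t : ℝ) : ℂ :=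
  cexp (I * (t / 2) * Real.log q) * (DirichletCharacter.gammaFactor χ (1 / 2 + I * t) /
    ‖DirichletCharacter.gammaFactor χ (1 / 2 + I * t)‖)

/-- `Z` is a Hardy function of `χ`: a real function of the form `u phase(t) L(1/2 + it, χ)` with a
constant `u` of modulus one. -/
def IsHardy (q : ℕ) (χ : DirichletCharacter ℂ q) (Z : ℝ → ℝ) : Prop :=
  ∃ u : ℂ, ‖u‖ = 1 ∧ ∀ t : ℝ, ((Z t : ℝ) : ℂ) = u * phase q χ t * Lfun q χ (1 / 2 + I * t)

/-- The zeros of `Z` in `(T, 2T]` with positive derivative. -/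
def increasing (Z : ℝ → ℝ) (T : ℝ) : Set ℝ := {t : ℝ | T < t ∧ t ≤ 2 * T ∧ Z t = 0 ∧ 0 < deriv Z t}

/-- The zeros of `Z` in `(T, 2T]` with negative derivative. -/
def decreasing (Z : ℝ → ℝ) (T : ℝ) : Set ℝ := {t : ℝ | T < t ∧ t ≤ 2 * T ∧ Z t = 0 ∧ deriv Z t < 0}

/-- The sum of `1 / q²` over the primitive Dirichlet characters `χ` of conductor `q`, `X < q ≤ Y`,
with the property `P`. -/
noncomputable def weight (X Y : ℕ) (P : (q : ℕ) → DirichletCharacter ℂ q → Prop) : ℝ :=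
  ∑ q ∈ Finset.Ioc X Y,
    (1 / (q : ℝ) ^ 2) * ({χ : DirichletCharacter ℂ q | χ.IsPrimitive ∧ P q χ}.ncard : ℝ)

open Pool.Agent.R321.RE H385 in
open scoped Classical in
lemma weight_eq (X Y : ℕ) (P : (q : ℕ) → DirichletCharacter ℂ q → Prop) :
    weight X Y P = mB ((primSet X Y).filter (fun p => P p.1 p.2)) := by
  unfold mB
  rw [Finset.sum_filter]
  have h1 : ∑ p ∈ primSet X Y, (if P p.1 p.2 then (1 / (p.1 : ℝ) ^ 2) else 0) =
      primFam X Y (fun q χ => if P q χ then 1 else 0) := by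
    rw [primFam_eq]
    refine Finset.sum_congr rfl fun p _ => ?_
    by_cases h : P p.1 p.2
    · simp only [if_pos h, mul_one]
    · simp only [if_neg h, mul_zero]
  rw [h1]
  unfold weight primFam
  refine Finset.sum_congr rfl fun q hq => ?_
  have hq0 : q ≠ 0 := by
    have := (Finset.mem_Ioc.mp hq).1
    omega
  have hfin : {χ : DirichletCharacter ℂ q | χ.IsPrimitive}.Finite := prim_finite q hq0
  congr 1
  have h3 := finsum_set_coe_eq_finsum_mem (f := fun χ : DirichletCharacter ℂ q =>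
    if P q χ then (1 : ℝ) else 0) {χ : DirichletCharacter ℂ q | χ.IsPrimitive}
  refine Eq.trans ?_ h3.symm
  rw [finsum_mem_eq_finite_toFinset_sum _ hfin, ← Finset.sum_filter, Finset.sum_const,
    nsmul_eq_mul, mul_one]
  congr 1
  rw [← Set.ncard_coe_finset]
  congr 1
  ext χ
  simp

open Pool.Agent.R321.RE H385 in
open scoped Classical in
lemma weight_true (X Y : ℕ) : weight X Y (fun _ _ => True) = WW X Y := by
  rw [weight_eq, ← WW_mB]
  simp

open Pool.Agent.R321.RE H385 in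
open scoped Classical in
lemma weight_le (X Y : ℕ) (P : (q : ℕ) → DirichletCharacter ℂ q → Prop) (c : ℝ)
    (h : ∀ B : Finset IX, B ⊆ primSet X Y → (∀ p ∈ B, P p.1 p.2) → mB B ≤ c) :
    weight X Y P ≤ c := by
  rw [weight_eq]
  exact h _ (Finset.filter_subset _ _) (fun p hp => (Finset.mem_filter.mp hp).2)

lemma Lfun_eq (q : ℕ) [NeZero q] (χ : DirichletCharacter ℂ q) :
    Lfun q χ = DirichletCharacter.LFunction χ := by
  unfold Lfun
  rw [dif_neg (NeZero.ne q)]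

/-- a Hardy function, as a complex function -/
lemma hardy_spec {q : ℕ} [NeZero q] {χ : DirichletCharacter ℂ q} (hχ : χ.IsPrimitive) {Z : ℝ → ℝ}
    (hZ : IsHardy q χ Z) :
    ∃ u : ℂ, ‖u‖ = 1 ∧ R304.DS.Hyp (Lfun q χ) (fun t => u * R304.DS.phase χ t) ∧
      ∀ t, ((Z t : ℝ) : ℂ) = R304.DS.Z (Lfun q χ) (fun t => u * R304.DS.phase χ t) t := by
  obtain ⟨u, hu, h⟩ := hZ
  have h' : ∀ t : ℝ, ((Z t : ℝ) : ℂ) = u * R304.DS.phase χ t * Lfun q χ (1 / 2 + I * t) := h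
  refine ⟨u, hu, ?_, h'⟩
  rw [Lfun_eq]
  refine R304.DS.hyp χ hχ hu fun t => ?_
  have h1 := h' t
  rw [Lfun_eq] at h1
  rw [← h1, Complex.ofReal_im]

lemma sets_eq {Z : ℝ → ℝ} {φ : ℝ → ℂ} {F : ℂ → ℂ} (hyp : R304.DS.Hyp F φ)
    (hZ : ∀ t, ((Z t : ℝ) : ℂ) = R304.DS.Z F φ t) (T : ℝ) :
    increasing Z T =
      {t : ℝ | T < t ∧ t ≤ 2 * T ∧ R304.DS.Z F φ t = 0 ∧ 0 < (deriv (R304.DS.Z F φ) t).re} ∧
    decreasing Z T =
      {t : ℝ | T < t ∧ t ≤ 2 * T ∧ R304.DS.Z F φ t = 0 ∧ (deriv (R304.DS.Z F φ) t).re < 0} := by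
  have h0 : ∀ t, Z t = 0 ↔ R304.DS.Z F φ t = 0 := fun t => by
    rw [← hZ t, Complex.ofReal_eq_zero]
  have hre : Z = fun t => (R304.DS.Z F φ t).re := by
    funext t
    rw [← hZ t, Complex.ofReal_re]
  have hd : ∀ t, Z t = 0 → deriv Z t = (deriv (R304.DS.Z F φ) t).re := by
    intro t ht
    have h1 := R304.DS.Z_hasDerivAt hyp t ((R304.DS.Z_zero_iff hyp t).1 ((h0 t).1 ht))
    rw [h1.deriv]
    have h2 := Complex.reCLM.hasFDerivAt.comp_hasDerivAt t h1
    rw [hre]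
    exact h2.deriv
  constructor
  · ext t
    constructor
    · rintro ⟨h1, h2, h3, h4⟩
      exact ⟨h1, h2, (h0 t).1 h3, by rwa [hd t h3] at h4⟩
    · rintro ⟨h1, h2, h3, h4⟩
      have h5 := (h0 t).2 h3
      exact ⟨h1, h2, h5, by rwa [hd t h5]⟩
  · ext t
    constructor
    · rintro ⟨h1, h2, h3, h4⟩
      exact ⟨h1, h2, (h0 t).1 h3, by rwa [hd t h3] at h4⟩
    · rintro ⟨h1, h2, h3, h4⟩
      have h5 := (h0 t).2 h3
      exact ⟨h1, h2, h5, by rwa [hd t h5]⟩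

/-- Hardy functions exist and are unique up to the sign. -/
theorem hardy_exists (q : ℕ) (hq : 0 < q) (χ : DirichletCharacter ℂ q) (hχ : χ.IsPrimitive) :
    (∃ Z : ℝ → ℝ, IsHardy q χ Z) ∧
      ∀ Z Z' : ℝ → ℝ, IsHardy q χ Z → IsHardy q χ Z' → Z' = Z ∨ Z' = -Z := by
  have : NeZero q := ⟨by omega⟩
  constructor
  · obtain ⟨u, hu, hu2⟩ := R304.DS.exists_u χ hχ
    refine ⟨fun t => (u * phase q χ t * Lfun q χ (1 / 2 + I * t)).re, u, hu, fun t => ?_⟩
    apply Complex.ext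
    · simp
    · rw [Complex.ofReal_im, Lfun_eq]
      exact (R304.DS.real_prod χ hχ hu hu2 t).symm
  · rintro Z Z' ⟨u, hu, h1⟩ ⟨v, hv, h2⟩
    have h1' : ∀ t : ℝ, ((Z t : ℝ) : ℂ) =
        u * R304.DS.phase χ t * DirichletCharacter.LFunction χ (1 / 2 + I * t) := fun t => by
      rw [← Lfun_eq]; exact h1 t
    have h2' : ∀ t : ℝ, ((Z' t : ℝ) : ℂ) =
        v * R304.DS.phase χ t * DirichletCharacter.LFunction χ (1 / 2 + I * t) := fun t => by
      rw [← Lfun_eq]; exact h2 t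
    have h3 := R304.DS.unique_u χ hχ hu hv (fun t => by rw [← h1' t, Complex.ofReal_im])
      (fun t => by rw [← h2' t, Complex.ofReal_im])
    rcases h3 with h3 | h3
    · left
      funext t
      have : ((Z' t : ℝ) : ℂ) = ((Z t : ℝ) : ℂ) := by rw [h1' t, h2' t, h3]
      exact_mod_cast this
    · right
      funext t
      have : ((Z' t : ℝ) : ℂ) = ((-Z t : ℝ) : ℂ) := by
        rw [Complex.ofReal_neg, h1' t, h2' t, h3]; ring
      exact_mod_cast this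

theorem result :
    (∀ (q : ℕ), 0 < q → ∀ χ : DirichletCharacter ℂ q, χ.IsPrimitive →
      (∃ Z : ℝ → ℝ, IsHardy q χ Z) ∧
      ∀ Z Z' : ℝ → ℝ, IsHardy q χ Z → IsHardy q χ Z' → Z' = Z ∨ Z' = -Z) ∧
    ∀ ε : ℝ, 0 < ε → ∃ K η X0 : ℝ, 1 ≤ K ∧ 0 < η ∧ 1 ≤ X0 ∧
      ∀ (X Y : ℕ) (T : ℝ), X0 ≤ X → K * X ≤ Y → (Y : ℝ) ≤ (X : ℝ) ^ (1 + η) →
        (Real.log X) ^ 2 ≤ T → T ≤ (X : ℝ) ^ η →
        ∀ Z : (q : ℕ) → DirichletCharacter ℂ q → ℝ → ℝ,
        (∀ (q : ℕ) (χ : DirichletCharacter ℂ q), X < q → q ≤ Y → χ.IsPrimitive →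
          IsHardy q χ (Z q χ)) →
        weight X Y (fun q χ =>
          ((increasing (Z q χ) T).ncard : ℝ) < (0.3362 - ε) * N (Lfun q χ) T ∨
          ((decreasing (Z q χ) T).ncard : ℝ) < (0.3362 - ε) * N (Lfun q χ) T) ≤
            ε * weight X Y (fun _ _ => True) := by
  refine ⟨hardy_exists, fun ε hε => ?_⟩
  obtain ⟨K, η, X0, hK, hη, hX0, h⟩ := Pool.Agent.R321.RE.ae_balanced ε hε
  refine ⟨K, η, max X0 (Real.exp 1), hK, hη, hX0.trans (le_max_left _ _), ?_⟩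
  intro X Y T hX a2 a3 a4 a5 Z hZ
  have hXX : X0 ≤ X := (le_max_left _ _).trans hX
  have hXe : Real.exp 1 ≤ X := (le_max_right _ _).trans hX
  have hT1 : 1 ≤ T := by
    have h1 : 1 ≤ Real.log X := by
      rw [Real.le_log_iff_exp_le (lt_of_lt_of_le (Real.exp_pos 1) hXe)]; exact hXe
    nlinarith
  have hbal : ∀ (q : ℕ) (χ : DirichletCharacter ℂ q), X < q → q ≤ Y → χ.IsPrimitive →
      Pool.Agent.R321.RA.Balanced (H385.LF q χ) T ((increasing (Z q χ) T).ncard) ∧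
      Pool.Agent.R321.RA.Balanced (H385.LF q χ) T ((decreasing (Z q χ) T).ncard) := by
    intro q χ hq1 hq2 hχ
    have : NeZero q := ⟨by omega⟩
    obtain ⟨u, -, hyp, h1⟩ := hardy_spec hχ (hZ q χ hq1 hq2 hχ)
    obtain ⟨e1, e2⟩ := sets_eq hyp h1 T
    obtain ⟨b1, b2⟩ := R304.DS.balance hyp (show 0 < T by linarith) (show T < 2 * T by linarith)
    rw [← e1] at b1
    rw [← e2] at b2
    exact ⟨b1, b2⟩
  rw [weight_true]
  exact weight_le X Y _ _ (h X Y T hXX a2 a3 a4 a5 _ _ hbal)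

end Pool.Agent.Results.MP_f259ea_nt.AlmostAllSigns
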