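import Pool.Agent.R304.DS.Dir
import Pool.Agent.TH822.AA.Main

/-!
# The signs of `Z'(t)` at the zeros of `L(s, χ)` in almost all very short intervals

Let `χ` be a primitive Dirichlet character modulo `q ≥ 1` and `Z` one of the two real functions
`u phase(t) L(1/2 + it, χ)`, `|u| = 1` (Hardy's function of `χ`, determined up to the sign). For an
interval let `N`, `E` be the number and the excess multiplicity of the nontrivial zeros of `L(s, χ)`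
in it, and `I`, `D` the numbers of zeros of `Z` in it with `Z' > 0`, respectively `Z' < 0`.

Unconditionally, for every `0 < η < 1` and `ε > 0` there is `δ > 0` such that, for all large `T` and
`T ^ η ≤ H ≤ T / 8`, all `t ∈ [T, 2T]` outside a set of measure `T ^ (1 - δ)` have
`2 I ≥ (2 - c((1 + η) / 2) - ε) N + E - 1` and `2 D ≥ (2 - c((1 + η) / 2) - ε) N + E - 1` in the
interval `(t, t + H]`, where `c(h) = h/2 + cot(h/√2)/√2 ≤ 1/h + h/3`; the constant is positive for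
`η ≥ 1/9`. In every interval `2 I ≤ N + 1`, `2 D ≤ N + 1` and `|I - D| ≤ E + 1`.
-/

open Filter Topology Complex MeasureTheory

namespace Pool.Agent.Results.MP_f259ea_nt.SignsAlmostAllShort

/-- the phase `q^(it/2) γ(1/2 + it) / |γ(1/2 + it)|`, where `γ` is the Gamma factor of `χ`:
`γ(s) = π^(-(s+a)/2) Γ((s+a)/2)` with `a = 0` if `χ(-1) = 1` and `a = 1` if `χ(-1) = -1` -/
noncomputable def phase {q : ℕ} [NeZero q] (χ : DirichletCharacter ℂ q) (t : ℝ) : ℂ :=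
  cexp (I * (t / 2) * Real.log q) * (DirichletCharacter.gammaFactor χ (1 / 2 + I * t) /
    ‖DirichletCharacter.gammaFactor χ (1 / 2 + I * t)‖)

/-- `Z` is a Hardy function of `χ`: a real function of the form `u phase(t) L(1/2 + it, χ)` with a
constant `u` of modulus one -/
def IsHardy {q : ℕ} [NeZero q] (χ : DirichletCharacter ℂ q) (Z : ℝ → ℝ) : Prop :=
  ∃ u : ℂ, ‖u‖ = 1 ∧ ∀ t : ℝ,
    ((Z t : ℝ) : ℂ) = u * phase χ t * DirichletCharacter.LFunction χ (1 / 2 + I * t)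

/-- the zeros of `Z` in `(T₁, T₂]` with positive derivative -/
def increasing (Z : ℝ → ℝ) (T₁ T₂ : ℝ) : Set ℝ :=
  {t : ℝ | T₁ < t ∧ t ≤ T₂ ∧ Z t = 0 ∧ 0 < deriv Z t}

/-- the zeros of `Z` in `(T₁, T₂]` with negative derivative -/
def decreasing (Z : ℝ → ℝ) (T₁ T₂ : ℝ) : Set ℝ :=
  {t : ℝ | T₁ < t ∧ t ≤ T₂ ∧ Z t = 0 ∧ deriv Z t < 0}

/-- the multiplicity of `s` as a zero of `L(s, χ)` -/
noncomputable def mult {q : ℕ} [NeZero q] (χ : DirichletCharacter ℂ q) (s : ℂ) : ℕ :=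
  analyticOrderNatAt (DirichletCharacter.LFunction χ) s

/-- the nontrivial zeros of `L(s, χ)` with ordinate in `(T₁, T₂]` -/
def zeros {q : ℕ} [NeZero q] (χ : DirichletCharacter ℂ q) (T₁ T₂ : ℝ) : Set ℂ :=
  {s : ℂ | DirichletCharacter.LFunction χ s = 0 ∧ 0 < s.re ∧ s.re < 1 ∧ T₁ < s.im ∧ s.im ≤ T₂}

/-- the number of nontrivial zeros with ordinate in `(T₁, T₂]`, counted with multiplicity -/
noncomputable def N {q : ℕ} [NeZero q] (χ : DirichletCharacter ℂ q) (T₁ T₂ : ℝ) : ℕ :=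
  ∑ᶠ s ∈ zeros χ T₁ T₂, mult χ s

/-- the excess multiplicity: a zero of multiplicity `m` counts `max (m - 2) 0` if it is on the
critical line and `m - 1` if it is off the line (subtraction of natural numbers) -/
noncomputable def excess {q : ℕ} [NeZero q] (χ : DirichletCharacter ℂ q) (T₁ T₂ : ℝ) : ℕ :=
  ∑ᶠ s ∈ zeros χ T₁ T₂, (if s.re = 1 / 2 then mult χ s - 2 else mult χ s - 1)

/-- the constant `c(h) = h/2 + cot(h/√2)/√2`; `c(1) = c_MT⁻¹ = 1.3274...` -/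
noncomputable def c (h : ℝ) : ℝ := h / 2 + Real.cot (h / Real.sqrt 2) / Real.sqrt 2

section

variable {q : ℕ} [NeZero q] (χ : DirichletCharacter ℂ q)

theorem zeros_eq (T₁ T₂ : ℝ) :
    zeros χ T₁ T₂ = H370.zset (DirichletCharacter.LFunction χ) T₁ T₂ := by
  ext s
  simp only [zeros, H370.zset, Set.mem_ofPred_eq]
  tauto

/-- the set of zeros that is counted is finite -/
theorem zeros_finite (hχ : χ.IsPrimitive) (T₁ T₂ : ℝ) (h : 0 < T₁) : (zeros χ T₁ T₂).Finite := by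
  rw [zeros_eq]
  exact H370.zset_finite' (H370.good_dirichlet χ hχ) T₁ T₂ h

lemma N_eq (T₁ T₂ : ℝ) : N χ T₁ T₂ = H370.NN (DirichletCharacter.LFunction χ) T₁ T₂ := by
  unfold N H370.NN
  rw [zeros_eq]
  rfl

lemma excess_eq (T₁ T₂ : ℝ) :
    excess χ T₁ T₂ = W69DZ.EX (DirichletCharacter.LFunction χ) T₁ T₂ := by
  unfold excess W69DZ.EX
  rw [zeros_eq]
  rfl

lemma c_eq (h : ℝ) : c h = H295SI.cc h := rfl

lemma phase_eq (t : ℝ) : phase χ t = R304.DS.phase χ t := rfl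

variable {χ}

/-- a Hardy function, as a complex function -/
lemma hardy_spec (hχ : χ.IsPrimitive) {Z : ℝ → ℝ} (hZ : IsHardy χ Z) :
    ∃ u : ℂ, ‖u‖ = 1 ∧ R304.DS.Hyp (DirichletCharacter.LFunction χ)
      (fun t => u * R304.DS.phase χ t) ∧
      ∀ t, ((Z t : ℝ) : ℂ) = R304.DS.Z (DirichletCharacter.LFunction χ)
        (fun t => u * R304.DS.phase χ t) t := by
  obtain ⟨u, hu, h⟩ := hZ
  refine ⟨u, hu, R304.DS.hyp χ hχ hu fun t => ?_, fun t => ?_⟩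
  · rw [← phase_eq, ← h t, Complex.ofReal_im]
  · rw [h t]
    rfl

lemma sets_eq {Z : ℝ → ℝ} {φ : ℝ → ℂ} {F : ℂ → ℂ} (hyp : R304.DS.Hyp F φ)
    (hZ : ∀ t, ((Z t : ℝ) : ℂ) = R304.DS.Z F φ t) (T₁ T₂ : ℝ) :
    increasing Z T₁ T₂ =
      {t : ℝ | T₁ < t ∧ t ≤ T₂ ∧ R304.DS.Z F φ t = 0 ∧ 0 < (deriv (R304.DS.Z F φ) t).re} ∧
    decreasing Z T₁ T₂ =
      {t : ℝ | T₁ < t ∧ t ≤ T₂ ∧ R304.DS.Z F φ t = 0 ∧ (deriv (R304.DS.Z F φ) t).re < 0} := by
  have h0 : ∀ t, Z t = 0 ↔ R304.DS.Z F φ t = 0 := fun t => by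
    rw [← hZ t, Complex.ofReal_eq_zero]
  have hre : Z = fun t => (R304.DS.Z F φ t).re := by
    funext t
    rw [← hZ t, Complex.ofReal_re]
  have hd : ∀ t, Z t = 0 → deriv Z t = (deriv (R304.DS.Z F φ) t).re := by
    intro t ht
    have h1 := R304.DS.Z_hasDerivAt hyp t ((R304.DS.Z_zero_iff hyp t).1 ((h0 t).1 ht))
    rw [h1.deriv]
    have h2 := Complex.reCLM.hasFDerivAt.comp_hasDerivAt t h1
    rw [hre]
    exact h2.deriv
  constructor
  · ext t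
    constructor
    · rintro ⟨h1, h2, h3, h4⟩
      exact ⟨h1, h2, (h0 t).1 h3, by rwa [hd t h3] at h4⟩
    · rintro ⟨h1, h2, h3, h4⟩
      have h5 := (h0 t).2 h3
      exact ⟨h1, h2, h5, by rwa [hd t h5]⟩
  · ext t
    constructor
    · rintro ⟨h1, h2, h3, h4⟩
      exact ⟨h1, h2, (h0 t).1 h3, by rwa [hd t h3] at h4⟩
    · rintro ⟨h1, h2, h3, h4⟩
      have h5 := (h0 t).2 h3
      exact ⟨h1, h2, h5, by rwa [hd t h5]⟩

/-- the sets that are counted are finite -/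
theorem sets_finite (hχ : χ.IsPrimitive) {Z : ℝ → ℝ} (hZ : IsHardy χ Z) (T₁ T₂ : ℝ)
    (h : 0 < T₁) : (increasing Z T₁ T₂).Finite ∧ (decreasing Z T₁ T₂).Finite := by
  obtain ⟨u, -, hyp, h1⟩ := hardy_spec hχ hZ
  have hfin := R304.DS.RZ_finite hyp T₁ T₂ h
  obtain ⟨e1, e2⟩ := sets_eq hyp h1 T₁ T₂
  rw [e1, e2]
  exact ⟨hfin.subset fun t ht => ⟨ht.1, ht.2.1, ht.2.2.1⟩,
    hfin.subset fun t ht => ⟨ht.1, ht.2.1, ht.2.2.1⟩⟩

lemma bound (hχ : χ.IsPrimitive) {Z : ℝ → ℝ} (hZ : IsHardy χ Z) {T₁ T₂ k : ℝ} (h0 : 0 < T₁)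
    (h12 : T₁ < T₂)
    (h : k * (H370.NN (DirichletCharacter.LFunction χ) T₁ T₂ : ℝ) +
      2 * (W69DZ.EX (DirichletCharacter.LFunction χ) T₁ T₂ : ℝ) ≤
      (H370.Ns (DirichletCharacter.LFunction χ) T₁ T₂ : ℝ)) :
    k * (N χ T₁ T₂ : ℝ) + (excess χ T₁ T₂ : ℝ) - 1 ≤ 2 * ((increasing Z T₁ T₂).ncard : ℝ) ∧
    k * (N χ T₁ T₂ : ℝ) + (excess χ T₁ T₂ : ℝ) - 1 ≤ 2 * ((decreasing Z T₁ T₂).ncard : ℝ) := by
  obtain ⟨u, -, hyp, hZ1⟩ := hardy_spec hχ hZ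
  obtain ⟨h1, h2⟩ := R304.DS.balance hyp h0 h12
  obtain ⟨e1, e2⟩ := sets_eq hyp hZ1 T₁ T₂
  rw [← e1] at h1
  rw [← e2] at h2
  rw [N_eq, excess_eq]
  have h1' : (H370.Ns (DirichletCharacter.LFunction χ) T₁ T₂ : ℝ) ≤
      2 * ((increasing Z T₁ T₂).ncard : ℝ) + 1 +
        (W69DZ.EX (DirichletCharacter.LFunction χ) T₁ T₂ : ℝ) := by exact_mod_cast h1
  have h2' : (H370.Ns (DirichletCharacter.LFunction χ) T₁ T₂ : ℝ) ≤
      2 * ((decreasing Z T₁ T₂).ncard : ℝ) + 1 +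
        (W69DZ.EX (DirichletCharacter.LFunction χ) T₁ T₂ : ℝ) := by exact_mod_cast h2
  constructor <;> linarith


open H370 in
lemma ex_sum (hχ : χ.IsPrimitive) {T₁ T₂ : ℝ} (h : 1 ≤ T₁) :
    (W69DZ.EX (DirichletCharacter.LFunction χ) T₁ T₂) =
      ∑ s ∈ Zf (DirichletCharacter.LFunction χ) T₁ T₂,
        (if s.re = 1 / 2 then H370.mult (DirichletCharacter.LFunction χ) s - 2
          else H370.mult (DirichletCharacter.LFunction χ) s - 1) :=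
  finsum_Zf (good_dirichlet χ hχ) h _

open H370 in
lemma ns_ex (hχ : χ.IsPrimitive) {T₁ T₂ : ℝ} (h : 1 ≤ T₁) :
    Ns (DirichletCharacter.LFunction χ) T₁ T₂ + W69DZ.EX (DirichletCharacter.LFunction χ) T₁ T₂ ≤
      NN (DirichletCharacter.LFunction χ) T₁ T₂ := by
  classical
  have hg := good_dirichlet χ hχ
  have e1 : Ns (DirichletCharacter.LFunction χ) T₁ T₂ =
      ∑ s ∈ Zf (DirichletCharacter.LFunction χ) T₁ T₂,
        (if s.re = 1 / 2 ∧ H370.mult (DirichletCharacter.LFunction χ) s = 1 then 1 else 0) := by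
    have h1 : {s : ℂ | s ∈ zset (DirichletCharacter.LFunction χ) T₁ T₂ ∧ s.re = 1 / 2 ∧
        H370.mult (DirichletCharacter.LFunction χ) s = 1} =
        (((Zf (DirichletCharacter.LFunction χ) T₁ T₂).filter (fun s => s.re = 1 / 2 ∧
          H370.mult (DirichletCharacter.LFunction χ) s = 1) : Finset ℂ) : Set ℂ) := by
      ext s
      rw [Finset.mem_coe, Finset.mem_filter, mem_Zf hg h]
      rfl
    unfold Ns
    rw [h1, Set.ncard_coe_finset, Finset.card_filter]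
  rw [e1, ex_sum hχ h, NN_eq hg h, ← Finset.sum_add_distrib]
  refine Finset.sum_le_sum fun s hs => ?_
  rw [mem_Zf hg h] at hs
  have hm : 1 ≤ H370.mult (DirichletCharacter.LFunction χ) s :=
    H370.Loc.mult_pos' hg (by linarith [hs.2.2.1]) hs.2.2.2.2
  by_cases h1 : s.re = 1 / 2
  · rw [if_pos h1]
    by_cases h2 : H370.mult (DirichletCharacter.LFunction χ) s = 1
    · rw [if_pos ⟨h1, h2⟩, h2]
    · rw [if_neg (fun hh => h2 hh.2)]
      omega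
  · rw [if_neg h1, if_neg (fun hh => h1 hh.1)]
    omega

lemma both (hχ : χ.IsPrimitive) {Z : ℝ → ℝ} (hZ : IsHardy χ Z) {T₁ T₂ : ℝ} (h : 1 ≤ T₁) :
    (increasing Z T₁ T₂).ncard + (decreasing Z T₁ T₂).ncard ≤
      H370.Ns (DirichletCharacter.LFunction χ) T₁ T₂ := by
  obtain ⟨u, -, hyp, h2⟩ := hardy_spec hχ hZ
  obtain ⟨f1, f2⟩ := sets_finite hχ hZ T₁ T₂ (by linarith)
  obtain ⟨e1, e2⟩ := sets_eq hyp h2 T₁ T₂
  have hd : Disjoint (increasing Z T₁ T₂) (decreasing Z T₁ T₂) := by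
    rw [Set.disjoint_left]
    rintro t ⟨-, -, -, a⟩ ⟨-, -, -, b⟩
    exact absurd a (not_lt.2 b.le)
  rw [← Set.ncard_union_eq hd f1 f2]
  have hfin : {s : ℂ | s ∈ H370.zset (DirichletCharacter.LFunction χ) T₁ T₂ ∧ s.re = 1 / 2 ∧
      H370.mult (DirichletCharacter.LFunction χ) s = 1}.Finite :=
    (H370.zset_finite' (H370.good_dirichlet χ hχ) T₁ T₂ (by linarith)).subset fun s hs => hs.1
  unfold H370.Ns
  refine Set.ncard_le_ncard_of_injOn (fun t : ℝ => (1 / 2 + I * t : ℂ)) ?_ ?_ hfin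
  · intro t ht
    have key : T₁ < t ∧ t ≤ T₂ ∧ R304.DS.Z (DirichletCharacter.LFunction χ)
        (fun t => u * R304.DS.phase χ t) t = 0 ∧
        (deriv (R304.DS.Z (DirichletCharacter.LFunction χ)
          (fun t => u * R304.DS.phase χ t)) t).re ≠ 0 := by
      rcases ht with ht | ht
      · rw [e1] at ht
        exact ⟨ht.1, ht.2.1, ht.2.2.1, ht.2.2.2.ne'⟩
      · rw [e2] at ht
        exact ⟨ht.1, ht.2.1, ht.2.2.1, ht.2.2.2.ne⟩
    obtain ⟨k1, k2, k3, k4⟩ := key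
    have h0 := (R304.DS.Z_zero_iff hyp t).1 k3
    have h5 : deriv (DirichletCharacter.LFunction χ) (1 / 2 + I * t) ≠ 0 := by
      intro h6
      rw [(R304.DS.Z_hasDerivAt hyp t h0).deriv, h6] at k4
      simp at k4
    have h6 := (hyp.an t).analyticOrderAt_eq_one_of_zero_deriv_ne_zero h0 h5
    refine ⟨⟨by simp, by simp; norm_num, by simpa using k1, by simpa using k2, h0⟩, by simp, ?_⟩
    show analyticOrderNatAt (DirichletCharacter.LFunction χ) (1 / 2 + I * t) = 1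
    unfold analyticOrderNatAt
    rw [h6]
    rfl
  · intro a _ b _ hab
    have h7 : (1 / 2 + I * (a : ℂ)).im = (1 / 2 + I * (b : ℂ)).im := by
      have := congrArg Complex.im hab
      exact this
    simpa using h7

/-- every interval: the balance, and the upper bounds -/
lemma every (hχ : χ.IsPrimitive) {Z : ℝ → ℝ} (hZ : IsHardy χ Z) {T₁ T₂ : ℝ} (h : 1 ≤ T₁)
    (h12 : T₁ < T₂) :
    2 * (increasing Z T₁ T₂).ncard ≤ N χ T₁ T₂ + 1 ∧
    2 * (decreasing Z T₁ T₂).ncard ≤ N χ T₁ T₂ + 1 ∧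
    (increasing Z T₁ T₂).ncard ≤ (decreasing Z T₁ T₂).ncard + excess χ T₁ T₂ + 1 ∧
    (decreasing Z T₁ T₂).ncard ≤ (increasing Z T₁ T₂).ncard + excess χ T₁ T₂ + 1 := by
  obtain ⟨u, -, hyp, hZ1⟩ := hardy_spec hχ hZ
  obtain ⟨h1, h2⟩ := R304.DS.balance hyp (by linarith) h12
  obtain ⟨e1, e2⟩ := sets_eq hyp hZ1 T₁ T₂
  rw [← e1] at h1
  rw [← e2] at h2
  have h3 := both hχ hZ (T₂ := T₂) h
  have h4 := ns_ex hχ (T₂ := T₂) h
  rw [N_eq, excess_eq]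
  omega

end

/-- `Z` is a Hardy function of `χ`, and `t` is good for the length `H` and the constant `k`: each
sign occurs in `(t, t + H]` at least `(k N + E - 1) / 2` times -/
def Good {q : ℕ} [NeZero q] (χ : DirichletCharacter ℂ q) (Z : ℝ → ℝ) (k H t : ℝ) : Prop :=
  k * (N χ t (t + H) : ℝ) + (excess χ t (t + H) : ℝ) - 1 ≤
      2 * ((increasing Z t (t + H)).ncard : ℝ) ∧
    k * (N χ t (t + H) : ℝ) + (excess χ t (t + H) : ℝ) - 1 ≤
      2 * ((decreasing Z t (t + H)).ncard : ℝ)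

/-- **signs of the derivative of Hardy's function of `χ` in almost all very short intervals** -/
theorem result {q : ℕ} [NeZero q] (χ : DirichletCharacter ℂ q) (hχ : χ.IsPrimitive) :
    -- Hardy's function exists and is determined up to the sign
    (∃ Z : ℝ → ℝ, IsHardy χ Z) ∧
    (∀ Z Z' : ℝ → ℝ, IsHardy χ Z → IsHardy χ Z' → Z' = Z ∨ Z' = -Z) ∧
    (∀ Z : ℝ → ℝ, IsHardy χ Z →
      -- almost all very short intervals
      (∀ η ε : ℝ, 0 < η → η < 1 → 0 < ε →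
        ∃ δ : ℝ, 0 < δ ∧ ∃ T₀ : ℝ, ∀ T : ℝ, T₀ ≤ T → ∀ H : ℝ, T ^ η ≤ H → H ≤ T / 8 →
          volume {t : ℝ | t ∈ Set.Icc T (2 * T) ∧
            ¬ Good χ Z (2 - c ((1 + η) / 2) - ε) H t} ≤ ENNReal.ofReal (T ^ (1 - δ))) ∧
      -- intervals of length `T ^ (1 / 9)`: a positive proportion for each sign
      (∃ δ : ℝ, 0 < δ ∧ ∃ T₀ : ℝ, ∀ T : ℝ, T₀ ≤ T → ∀ H : ℝ, T ^ (1 / 9 : ℝ) ≤ H → H ≤ T / 8 →
          volume {t : ℝ | t ∈ Set.Icc T (2 * T) ∧ ¬ Good χ Z 0.0148 H t} ≤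
            ENNReal.ofReal (T ^ (1 - δ))) ∧
      -- every interval
      (∀ T₁ T₂ : ℝ, 1 ≤ T₁ → T₁ < T₂ →
        2 * (increasing Z T₁ T₂).ncard ≤ N χ T₁ T₂ + 1 ∧
        2 * (decreasing Z T₁ T₂).ncard ≤ N χ T₁ T₂ + 1 ∧
        (increasing Z T₁ T₂).ncard ≤ (decreasing Z T₁ T₂).ncard + excess χ T₁ T₂ + 1 ∧
        (decreasing Z T₁ T₂).ncard ≤ (increasing Z T₁ T₂).ncard + excess χ T₁ T₂ + 1)) ∧
    -- the constant
    ∀ h : ℝ, 0 < h → h ≤ 1 → c h ≤ 1 / h + h / 3 := by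
  have main : ∀ Z : ℝ → ℝ, IsHardy χ Z → ∀ η ε : ℝ, 0 < η → η < 1 → 0 < ε →
      ∃ δ : ℝ, 0 < δ ∧ ∃ T₀ : ℝ, ∀ T : ℝ, T₀ ≤ T → ∀ H : ℝ, T ^ η ≤ H → H ≤ T / 8 →
          volume {t : ℝ | t ∈ Set.Icc T (2 * T) ∧
            ¬ Good χ Z (2 - c ((1 + η) / 2) - ε) H t} ≤ ENNReal.ofReal (T ^ (1 - δ)) := by
    intro Z hZ η ε h0 h1 hε
    obtain ⟨δ, hδ, T0, hT0, r⟩ := Pool.Agent.TH822.AA.almost_prim χ hχ η ((1 + η) / 2) ε h0 h1
      (by linarith) (by linarith) hε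
    refine ⟨δ, hδ, T0, fun T hT H hH1 hH2 => (measure_mono ?_).trans (r T hT H hH1 hH2)⟩
    rintro t ⟨ht, hn⟩
    refine ⟨ht, fun hh => hn ?_⟩
    have hT10 : 10 ≤ T := hT0.trans hT
    have hH : 0 < H := lt_of_lt_of_le (Real.rpow_pos_of_pos (by linarith) η) hH1
    exact bound hχ hZ (by linarith [ht.1]) (by linarith) hh.1
  refine ⟨?_, ?_, fun Z hZ => ⟨main Z hZ, ?_, fun T₁ T₂ h h12 => every hχ hZ h h12⟩,
    H295SI.cc_le⟩
  · obtain ⟨u, hu, hu2⟩ := R304.DS.exists_u χ hχ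
    refine ⟨fun t => (u * phase χ t * DirichletCharacter.LFunction χ (1 / 2 + I * t)).re, u, hu,
      fun t => ?_⟩
    apply Complex.ext
    · simp
    · rw [Complex.ofReal_im]
      exact (R304.DS.real_prod χ hχ hu hu2 t).symm
  · rintro Z Z' ⟨u, hu, h1⟩ ⟨v, hv, h2⟩
    have h3 := R304.DS.unique_u χ hχ hu hv (fun t => by
      rw [← phase_eq, ← h1 t, Complex.ofReal_im]) (fun t => by
      rw [← phase_eq, ← h2 t, Complex.ofReal_im])
    rcases h3 with h3 | h3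
    · left
      funext t
      have : ((Z' t : ℝ) : ℂ) = ((Z t : ℝ) : ℂ) := by rw [h1 t, h2 t, h3]
      exact_mod_cast this
    · right
      funext t
      have : ((Z' t : ℝ) : ℂ) = ((-Z t : ℝ) : ℂ) := by
        rw [Complex.ofReal_neg, h1 t, h2 t, h3]; ring
      exact_mod_cast this
  · obtain ⟨δ, hδ, T₀, r⟩ := main Z hZ (1 / 9) 0.00001 (by norm_num) (by norm_num) (by norm_num)
    refine ⟨δ, hδ, T₀, fun T hT H hH1 hH2 => (measure_mono ?_).trans (r T hT H hH1 hH2)⟩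
    rintro t ⟨ht, hn⟩
    refine ⟨ht, fun hh => hn ?_⟩
    have hc : c ((1 + 1 / 9) / 2) ≤ 1 / ((1 + 1 / 9) / 2) + (1 + 1 / 9) / 2 / 3 :=
      H295SI.cc_le _ (by norm_num) (by norm_num)
    have hk : (0.0148 : ℝ) ≤ 2 - c ((1 + 1 / 9) / 2) - 0.00001 := by
      norm_num at hc ⊢
      linarith
    have hN0 : (0 : ℝ) ≤ N χ t (t + H) := Nat.cast_nonneg _
    have hk2 : (0.0148 : ℝ) * (N χ t (t + H) : ℝ) ≤
        (2 - c ((1 + 1 / 9) / 2) - 0.00001) * (N χ t (t + H) : ℝ) :=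
      mul_le_mul_of_nonneg_right hk hN0
    obtain ⟨a, b⟩ := hh
    constructor <;> linarith

end Pool.Agent.Results.MP_f259ea_nt.SignsAlmostAllShort
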