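import Pool.Agent.Results.MP_f259ea_nt.EveryShortInterval
import Pool.Agent.R770.LG.Meas2

/-!
# Distinct zeros of ALL Dirichlet L-functions in ALL short intervals at the powers of almost every number

Let `f_n` be positive functions on `(a, ∞)`, `a ≥ 0`, such that `f_n(x) / x` is nondecreasing and the sum of the
`f_n(x) ^ (-t)` converges for all `t > 0` (for instance `f_n(x) = x ^ n`, `x ^ (3 ^ n)`, or the orbits of `x² + 1`). Let
`η > 0` and let `L_k` be lengths between `2 ^ (k η)` and `2 ^ k / 8`. For almost every `α > a`, for EVERY primitive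
character `χ` modulo `q > 1` and all but finitely many `n`, more than `47` per cent of the zeros of `L(s, χ)` with
ordinates in `(t, t + L_k]`, `t = f_n(α)`, `2 ^ k ≤ t < 2 ^ (k + 1)`, are distinct.
-/

set_option autoImplicit false

open Filter Topology MeasureTheory

namespace Pool.Agent.Results.MP_f259ea_nt.StarshapedIntervals

open EveryShortInterval (N Nd Noff excess Bound c)

/-- the functions `f n` are positive on `(a, ∞)`, `a ≥ 0`, and `f n x / x` is nondecreasing there -/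
def Starshaped (a : ℝ) (f : ℕ → ℝ → ℝ) : Prop :=
  0 ≤ a ∧ ∀ n : ℕ, ∀ x y : ℝ, a < x → x ≤ y → 0 < f n x ∧ f n x / x ≤ f n y / y

/-- for each `x > a` the exponent of convergence of the sequence `f n x` is zero -/
def Thin (a : ℝ) (f : ℕ → ℝ → ℝ) : Prop :=
  ∀ x : ℝ, a < x → ∀ t : ℝ, 0 < t → Summable (fun n : ℕ => (f n x) ^ (-t))

/-- the length `L k` for `2 ^ k ≤ t < 2 ^ (k + 1)` -/
noncomputable def len (L : ℕ → ℝ) (t : ℝ) : ℝ := L (Nat.log 2 ⌊t⌋₊)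

lemma len_eq (L : ℕ → ℝ) {t : ℝ} {k : ℕ} (h1 : (2 : ℝ) ^ k ≤ t) (h2 : t < 2 ^ (k + 1)) : len L t = L k := by
  unfold len
  have h0 : 0 ≤ t := le_trans (by positivity) h1
  rw [Nat.log_eq_of_pow_le_of_lt_pow (m := k)]
  · exact Nat.le_floor (by push_cast; exact h1)
  · rw [Nat.floor_lt h0]
    push_cast
    exact h2

lemma bound_mono {q : ℕ} [NeZero q] (χ : DirichletCharacter ℂ q) {j : ℕ} {h ε ε' T₁ T₂ : ℝ} (hε : ε ≤ ε')
    (hb : Bound χ j h ε T₁ T₂) : Bound χ j h ε' T₁ T₂ := by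
  unfold Bound at hb ⊢
  have h1 : ((2 * j + 1 - c h) / (j * (j + 1)) - ε') * (N χ T₁ T₂ : ℝ) ≤
      ((2 * j + 1 - c h) / (j * (j + 1)) - ε) * (N χ T₁ T₂ : ℝ) :=
    mul_le_mul_of_nonneg_right (by linarith) (Nat.cast_nonneg _)
  linarith

/-- one character, one pair of parameters -/
lemma one_char {a : ℝ} {f : ℕ → ℝ → ℝ} (hf : Starshaped a f) (ht : Thin a f) {η : ℝ} (h0 : 0 < η) (h1 : η < 1)
    {L : ℕ → ℝ} {k₀ : ℕ} (hL : ∀ k, k₀ ≤ k → ((2 : ℝ) ^ k) ^ η ≤ L k ∧ L k ≤ 2 ^ k / 8)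
    (q : ℕ) [NeZero q] (hq : 1 < q) (χ : DirichletCharacter ℂ q) (hχ : χ.IsPrimitive) (j : ℕ) (hj : 1 ≤ j) (ε : ℝ)
    (hε : 0 < ε) :
    ∃ Z : Set ℝ, volume Z = 0 ∧ ∀ α : ℝ, a < α → α ∉ Z → ∃ n₀ : ℕ, ∀ n : ℕ, n₀ ≤ n →
      Bound χ j ((1 + η) / 2) ε (f n α) (f n α + len L (f n α)) := by
  obtain ⟨δ, hδ, T₀, h⟩ := (EveryShortInterval.result q hq χ hχ).2.2.1 j η ε hj h0 h1 hε
  obtain ⟨k₁, hk₁⟩ := eventually_atTop.1 ((tendsto_pow_atTop_atTop_of_one_lt (one_lt_two : (1 : ℝ) < 2)).eventually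
    (eventually_ge_atTop T₀))
  set S : Set ℝ := {t | ¬ Bound χ j ((1 + η) / 2) ε t (t + len L t)} with hS
  obtain ⟨Z, hZ, h2⟩ := Pool.Agent.R770.LG.star_pow_ae hf.1 (f := f) hf.2 ht S hδ (max k₀ k₁) (by
    intro k hk
    have hk0 : k₀ ≤ k := (le_max_left _ _).trans hk
    have hk1 : k₁ ≤ k := (le_max_right _ _).trans hk
    refine (measure_mono ?_).trans (h (2 ^ k) (hk₁ k hk1) (L k) (hL k hk0).1 (hL k hk0).2)
    rintro t ⟨h3, h4, h5⟩
    refine ⟨h4, ?_, ?_⟩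
    · rw [pow_succ, mul_comm] at h5
      exact h5.le
    · rw [hS, Set.mem_ofPred_eq, len_eq L h4 h5] at h3
      exact h3)
  refine ⟨Z, hZ, fun α hα hαZ => ?_⟩
  obtain ⟨n₀, hn₀⟩ := h2 α hα hαZ
  refine ⟨n₀, fun n hn => ?_⟩
  have h3 := hn₀ n hn
  rw [hS, Set.mem_ofPred_eq, not_not] at h3
  exact h3

/-- **Theorem.** (1) Let `f` be starshaped on `(a, ∞)` with exponent of convergence zero, `0 < η < 1` and let `L` be
lengths with `2 ^ (k η) ≤ L k ≤ 2 ^ k / 8` for large `k`. For all `α > a` outside ONE null set, for EVERY primitive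
character `χ` modulo `q > 1`: for all `j ≥ 1` and `ε > 0` the bound for the number of distinct zeros of `L(s, χ)` with the
parameters `j`, `(1 + η) / 2`, `ε` holds in `(t, t + L_k]`, `t = f_n(α)`, `2 ^ k ≤ t < 2 ^ (k + 1)`, for all but finitely
many `n`; in particular at least `17 / 36` of the zeros in these intervals are distinct. (2) The powers `x ^ (v_n)`,
`v_n ≥ 1`, and (3) the orbits of the maps `g` with `g(x) > x` and `g(x) / x` nondecreasing satisfy the hypotheses. -/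
theorem result :
    (∀ (a : ℝ) (f : ℕ → ℝ → ℝ), Starshaped a f → Thin a f → ∀ η : ℝ, 0 < η → η < 1 → ∀ (L : ℕ → ℝ) (k₀ : ℕ),
      (∀ k, k₀ ≤ k → ((2 : ℝ) ^ k) ^ η ≤ L k ∧ L k ≤ 2 ^ k / 8) →
      ∃ Z : Set ℝ, volume Z = 0 ∧ ∀ α : ℝ, a < α → α ∉ Z →
        ∀ (q : ℕ) [NeZero q] (χ : DirichletCharacter ℂ q), 1 < q → χ.IsPrimitive →
          (∀ (j : ℕ) (ε : ℝ), 1 ≤ j → 0 < ε → ∃ n₀ : ℕ, ∀ n : ℕ, n₀ ≤ n →
            Bound χ j ((1 + η) / 2) ε (f n α) (f n α + len L (f n α))) ∧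
          (∃ n₀ : ℕ, ∀ n : ℕ, n₀ ≤ n → 17 / 36 * (N χ (f n α) (f n α + len L (f n α)) : ℝ) ≤
            (Nd χ (f n α) (f n α + len L (f n α)) : ℝ))) ∧
    (∀ v : ℕ → ℝ, (∀ n, 1 ≤ v n) → (∀ t : ℝ, 0 < t → Summable fun n : ℕ => Real.exp (-(t * v n))) →
      Starshaped 1 (fun n x => x ^ (v n)) ∧ Thin 1 (fun n x => x ^ (v n))) ∧
    (∀ (a : ℝ) (g : ℝ → ℝ), 0 ≤ a → (∀ x y : ℝ, a < x → x ≤ y → g x / x ≤ g y / y) → (∀ x : ℝ, a < x → x < g x) →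
      Starshaped a (fun n x => g^[n] x) ∧ Thin a (fun n x => g^[n] x)) := by
  refine ⟨fun a f hf ht η h0 h1 L k₀ hL => ?_, Pool.Agent.R482.ST.ex_pow, Pool.Agent.R482.ST.ex_orbit⟩
  have key : ∀ (q : ℕ) (χ : DirichletCharacter ℂ (q + 1)) (j m : ℕ), ∃ Z : Set ℝ, volume Z = 0 ∧
      (1 < q + 1 → χ.IsPrimitive → 1 ≤ j → ∀ α : ℝ, a < α → α ∉ Z → ∃ n₀ : ℕ, ∀ n : ℕ, n₀ ≤ n →
        Bound χ j ((1 + η) / 2) (1 / ((m : ℝ) + 1)) (f n α) (f n α + len L (f n α))) := by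
    intro q χ j m
    by_cases hc : 1 < q + 1 ∧ χ.IsPrimitive ∧ 1 ≤ j
    · obtain ⟨Z, hZ, h⟩ := one_char hf ht h0 h1 hL (q + 1) hc.1 χ hc.2.1 j hc.2.2 (1 / ((m : ℝ) + 1)) (by positivity)
      exact ⟨Z, hZ, fun _ _ _ => h⟩
    · exact ⟨∅, measure_empty, fun g1 g2 g3 => absurd ⟨g1, g2, g3⟩ hc⟩
  choose Z hZ hZ2 using key
  refine ⟨⋃ q, ⋃ χ, ⋃ j, ⋃ m, Z q χ j m, ?_, ?_⟩
  · refine measure_iUnion_null fun q => ?_
    haveI : Countable (DirichletCharacter ℂ (q + 1)) := inferInstance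
    exact measure_iUnion_null fun χ => measure_iUnion_null fun j => measure_iUnion_null fun m => hZ q χ j m
  · intro α hα hαZ q _ χ hq hχ
    obtain ⟨q', rfl⟩ := Nat.exists_eq_succ_of_ne_zero (NeZero.ne q)
    have hb : ∀ (j : ℕ) (ε : ℝ), 1 ≤ j → 0 < ε → ∃ n₀ : ℕ, ∀ n : ℕ, n₀ ≤ n →
        Bound χ j ((1 + η) / 2) ε (f n α) (f n α + len L (f n α)) := by
      intro j ε hj hε
      obtain ⟨m, hm⟩ := exists_nat_one_div_lt hε
      have hnot : α ∉ Z q' χ j m := fun hcon =>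
        hαZ (Set.mem_iUnion.2 ⟨q', Set.mem_iUnion.2 ⟨χ, Set.mem_iUnion.2 ⟨j, Set.mem_iUnion.2 ⟨m, hcon⟩⟩⟩⟩)
      obtain ⟨n₀, hn₀⟩ := hZ2 q' χ j m hq hχ hj α hα hnot
      exact ⟨n₀, fun n hn => bound_mono χ hm.le (hn₀ n hn)⟩
    refine ⟨hb, ?_⟩
    set h : ℝ := (1 + η) / 2 with hh
    have hh1 : 1 / 2 < h := by linarith
    have hh2 : h < 1 := by linarith
    have hch : c h ≤ 1 / h + h / 3 := (EveryShortInterval.result (q' + 1) hq χ hχ).2.2.2.2 h (by linarith) hh2.le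
    have hch2 : 1 / h + h / 3 < 13 / 6 := by
      rw [div_add_div _ _ (by linarith) (by norm_num), div_lt_div_iff₀ (by positivity) (by norm_num)]
      nlinarith
    obtain ⟨n₀, hn₀⟩ := hb 2 ((5 - c h) / 6 - 17 / 36) (by norm_num) (by linarith)
    refine ⟨n₀, fun n hn => ?_⟩
    have h3 := hn₀ n hn
    unfold Bound at h3
    push_cast at h3
    have h4 : (0 : ℝ) ≤ (excess χ 2 (f n α) (f n α + len L (f n α)) : ℝ) := Nat.cast_nonneg _
    have h5 : (0 : ℝ) ≤ (Noff χ (f n α) (f n α + len L (f n α)) : ℝ) := Nat.cast_nonneg _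
    have h6 : ((2 * 2 + 1 - c h) / (2 * (2 + 1)) - ((5 - c h) / 6 - 17 / 36)) = 17 / 36 := by ring
    rw [h6] at h3
    have h7 : 0 ≤ (excess χ 2 (f n α) (f n α + len L (f n α)) : ℝ) / (2 * (2 + 1)) := by positivity
    have h8 : 0 ≤ ((2 : ℝ) ^ 2 + 1) / (2 * 2 * (2 + 1)) * (Noff χ (f n α) (f n α + len L (f n α)) : ℝ) := by
      positivity
    linarith

end Pool.Agent.Results.MP_f259ea_nt.StarshapedIntervals
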